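import Mathlib

set_option autoImplicit false

namespace Pool.Agent.H.MP_aa9284_co

open Finset Configuration
open scoped Classical LinearAlgebra.Projectivization

theorem spread (t : ℝ) (n : ℕ) : ∀ S : Finset ℤ, S.card = n →
    (n : ℝ) * (n - 1) * (2 * n - 1) / 24 ≤ ∑ a ∈ S, ((a : ℝ) - t) ^ 2 := by
  induction n with
  | zero => intro S hS; simp [card_eq_zero.1 hS]
  | succ n ih =>
    intro S hS
    obtain ⟨a, ha, hmax⟩ := exists_max_image S (fun a : ℤ => |(a : ℝ) - t|)
      (card_pos.1 (by omega))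
    have h1 := ih (S.erase a) (by rw [card_erase_of_mem ha]; omega)
    rw [← add_sum_erase S _ ha]
    set r := |(a : ℝ) - t| with hr
    have hr0 : 0 ≤ r := abs_nonneg _
    have hsub : S ⊆ Icc ⌈t - r⌉ ⌊t + r⌋ := by
      intro b hb
      have := abs_le.1 (hmax b hb)
      exact mem_Icc.2 ⟨Int.ceil_le.2 (by linarith), Int.le_floor.2 (by linarith)⟩
    have h2 := card_le_card hsub
    rw [Int.card_Icc, hS] at h2
    have h3 : ((n : ℤ) + 1) ≤ ⌊t + r⌋ + 1 - ⌈t - r⌉ := by omega
    have h4 : ((n : ℝ) + 1) ≤ (⌊t + r⌋ : ℝ) + 1 - (⌈t - r⌉ : ℝ) := by exact_mod_cast h3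
    have h5 := Int.floor_le (t + r)
    have h6 := Int.le_ceil (t - r)
    have h7 : (n : ℝ) / 2 ≤ r := by linarith
    have h8 : ((n : ℝ) / 2) ^ 2 ≤ ((a : ℝ) - t) ^ 2 := by
      rw [← sq_abs ((a : ℝ) - t)]
      exact pow_le_pow_left₀ (by positivity) h7 2
    push_cast
    nlinarith

variable (P L : Type) [Membership P L] [ProjectivePlane P L] [Fintype P] [Fintype L]

theorem cnt_line (l : L) : (univ.filter (fun x : P => x ∈ l)).card = ProjectivePlane.order P L + 1 := by
  rw [← ProjectivePlane.pointCount_eq P l, pointCount, Nat.card_eq_fintype_card,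
    Fintype.card_subtype]

theorem cnt_two (x y : P) : ((univ.filter (fun l : L => x ∈ l ∧ y ∈ l)).card : ℝ)
    = (if x = y then (ProjectivePlane.order P L : ℝ) else 0) + 1 := by
  split_ifs with h
  · subst h
    have := ProjectivePlane.lineCount_eq L x
    rw [lineCount, Nat.card_eq_fintype_card, Fintype.card_subtype] at this
    simp only [and_self]
    exact_mod_cast this
  · obtain ⟨l, hl, hu⟩ := HasLines.existsUnique_line P L x y h
    have : univ.filter (fun l : L => x ∈ l ∧ y ∈ l) = {l} := by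
      ext m
      simp only [mem_filter, mem_univ, true_and, mem_singleton]
      exact ⟨fun hm => hu m hm, fun e => e ▸ hl⟩
    simp [this]

theorem ident (u : P → ℝ) : ∑ l : L, (∑ x ∈ univ.filter (fun x : P => x ∈ l), u x) ^ 2
    = (ProjectivePlane.order P L : ℝ) * ∑ x, u x ^ 2 + (∑ x, u x) ^ 2 := by
  have h1 : ∀ l : L, (∑ x ∈ univ.filter (fun x : P => x ∈ l), u x) ^ 2
      = ∑ x, ∑ y, if x ∈ l ∧ y ∈ l then u x * u y else 0 := by
    intro l
    rw [sq, sum_filter, sum_mul_sum]
    refine sum_congr rfl fun x _ => sum_congr rfl fun y _ => ?_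
    by_cases a : x ∈ l <;> by_cases b : y ∈ l <;> simp [a, b]
  simp only [h1]
  rw [sum_comm]
  have h2 : ∀ x : P, ∑ l : L, ∑ y, (if x ∈ l ∧ y ∈ l then u x * u y else 0)
      = (ProjectivePlane.order P L : ℝ) * u x ^ 2 + ∑ y, u x * u y := by
    intro x
    rw [sum_comm]
    have h3 : ∀ y : P, ∑ l : L, (if x ∈ l ∧ y ∈ l then u x * u y else 0)
        = (if x = y then (ProjectivePlane.order P L : ℝ) * (u x * u y) else 0) + u x * u y := by
      intro y
      rw [← sum_filter, sum_const, nsmul_eq_mul, cnt_two]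
      split_ifs <;> ring
    simp only [h3, sum_add_distrib, sum_ite_eq, mem_univ, if_true]
    ring
  simp only [h2, sum_add_distrib]
  rw [← mul_sum, sq (∑ x, u x), sum_mul_sum]

theorem main (w : P → ℕ) (s : ℝ) (hs : ∀ x, (w x : ℝ) ≤ s)
    (hi : Function.Injective (fun l : L => ∑ x ∈ univ.filter (fun x : P => x ∈ l), w x)) :
    (ProjectivePlane.order P L : ℝ) ^ 3 ≤ 3 * s ^ 2 := by
  set q := ProjectivePlane.order P L with hq
  have hq1 : (1 : ℝ) < q := by exact_mod_cast ProjectivePlane.one_lt_order P L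
  have hP : (Fintype.card P : ℝ) = q ^ 2 + q + 1 := by
    exact_mod_cast ProjectivePlane.card_points P L
  have hL : Fintype.card L = q ^ 2 + q + 1 := ProjectivePlane.card_lines P L
  set N : ℝ := q ^ 2 + q + 1 with hN
  have hN0 : 0 < N := by positivity
  set c : ℝ := (∑ x, (w x : ℝ)) / N with hc
  have hz : ∑ x, ((w x : ℝ) - c) = 0 := by
    rw [sum_sub_distrib, sum_const, card_univ, nsmul_eq_mul, hP, hc]
    field_simp
    ring
  have e1 := ident P L (fun x => (w x : ℝ) - c)
  rw [hz] at e1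
  have e2 : ∑ x, ((w x : ℝ) - c) ^ 2 ≤ N * (s ^ 2 / 4) := by
    have a : ∑ x, ((w x : ℝ) - s / 2) ^ 2
        = ∑ x, ((w x : ℝ) - c) ^ 2 + 2 * (c - s / 2) * ∑ x, ((w x : ℝ) - c)
          + ∑ _x : P, (c - s / 2) ^ 2 := by
      rw [mul_sum, ← sum_add_distrib, ← sum_add_distrib]
      exact sum_congr rfl fun x _ => by ring
    have b : ∑ x, ((w x : ℝ) - s / 2) ^ 2 ≤ ∑ _x : P, s ^ 2 / 4 :=
      sum_le_sum fun x _ => by
        have := hs x
        have h0 : (0 : ℝ) ≤ w x := Nat.cast_nonneg _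
        nlinarith
    have d : 0 ≤ ∑ _x : P, (c - s / 2) ^ 2 := sum_nonneg fun _ _ => sq_nonneg _
    rw [sum_const, card_univ, nsmul_eq_mul, hP] at b
    rw [hz] at a
    linarith
  let S : L → ℤ := fun l => ((∑ x ∈ univ.filter (fun x : P => x ∈ l), w x : ℕ) : ℤ)
  have hS : Function.Injective S := fun a b e => hi (Int.ofNat.inj e)
  have e3 := spread ((q + 1) * c) _ (univ.image S) rfl
  rw [sum_image (fun a _ b _ e => hS e), card_image_of_injective _ hS, card_univ, hL] at e3
  have e4 : ∀ l : L, ((S l : ℝ) - (q + 1) * c)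
      = ∑ x ∈ univ.filter (fun x : P => x ∈ l), ((w x : ℝ) - c) := by
    intro l
    rw [sum_sub_distrib, sum_const, cnt_line, nsmul_eq_mul]
    simp [S, hq]
  simp only [e4] at e3
  rw [e1] at e3
  push_cast at e3
  rw [← hN] at e3
  have e5 : N * (N - 1) * (2 * N - 1) / 24 ≤ q * (N * (s ^ 2 / 4)) := by
    have := mul_le_mul_of_nonneg_left e2 (show (0 : ℝ) ≤ q by linarith)
    linarith
  have e6 : (N * q) * ((q + 1) * (2 * q ^ 2 + 2 * q + 1)) ≤ (N * q) * (6 * s ^ 2) := by
    have : N * (N - 1) * (2 * N - 1) = (N * q) * ((q + 1) * (2 * q ^ 2 + 2 * q + 1)) := by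
      rw [hN]; ring
    linarith
  have e7 := le_of_mul_le_mul_left e6 (by positivity)
  nlinarith

theorem big (n : ℕ) : ∃ (P L : Type) (_ : Membership P L) (_ : ProjectivePlane P L)
    (_ : Fintype P) (_ : Fintype L), n ≤ ProjectivePlane.order P L := by
  obtain ⟨p, hp, hpp⟩ := Nat.exists_infinite_primes (n ^ 2 + n + 2)
  haveI : Fact p.Prime := ⟨hpp⟩
  let P := ℙ (ZMod p) (Fin 3 → ZMod p)
  letI : Fintype P := Fintype.ofFinite _
  refine ⟨P, P, inferInstance, inferInstance, inferInstance, inferInstance, ?_⟩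
  have h1 := ProjectivePlane.card_points P P
  have h2 : p ≤ Fintype.card P := by
    have hv : ∀ a : ZMod p, (![1, a, 0] : Fin 3 → ZMod p) ≠ 0 := fun a e => by
      simpa using congrFun e 0
    have : Function.Injective (fun a : ZMod p => (Projectivization.mk (ZMod p) _ (hv a) : P)) := by
      intro a b e
      obtain ⟨u, hu⟩ := (Projectivization.mk_eq_mk_iff' _ _ _ _ _).1 e
      have h0 : u = 1 := by simpa using congrFun hu 0
      have h1 := congrFun hu 1
      simpa [h0] using h1.symm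
    simpa using Fintype.card_le_of_injective _ this
  by_contra hc
  have : ProjectivePlane.order P P ≤ n := by omega
  have := Nat.pow_le_pow_left this 2
  omega

end Pool.Agent.H.MP_aa9284_co
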